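import Pool.Agent.W2helper18.RX.Stm

set_option autoImplicit false

namespace Pool.Agent.W2helper19.RX

open Finset Pool.Agent.H197R2.PG Pool.Agent.W2helper18.RX

theorem p_B : P_B := by
  intro p L hp hL r
  have _i := Fact.mk hp
  have hp0 : (0 : ℝ) < p := by exact_mod_cast hp.pos
  have hL' : (p : ℝ) ^ 2 ≤ L := by exact_mod_cast hL
  by_cases h2p : p = 2
  · subst h2p
    have h1 : #((Icc 1 L).filter fun x : ℕ => ((2 : ℕ) : ℤ) ∣ (sh x : ℤ) - r) ≤ L := by
      refine (Finset.card_filter_le _ _).trans ?_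
      rw [Nat.card_Icc]
      omega
    have h2 : ((#((Icc 1 L).filter fun x : ℕ => ((2 : ℕ) : ℤ) ∣ (sh x : ℤ) - r) : ℕ) : ℝ) ≤ L := by
      exact_mod_cast h1
    refine h2.trans ?_
    have : (0 : ℝ) ≤ L := Nat.cast_nonneg L
    push_cast
    linarith
  have h2 : (2 : ZMod p) ≠ 0 := by
    intro h
    have h3 : ((2 : ℕ) : ZMod p) = 0 := by exact_mod_cast h
    rw [ZMod.natCast_eq_zero_iff] at h3
    exact h2p ((Nat.prime_dvd_prime_iff_eq hp Nat.prime_two).mp h3)
  set e := orderOf (2 : ZMod p) with he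
  have hpow : (2 : ZMod p) ^ (p - 1) = 1 := ZMod.pow_card_sub_one_eq_one h2
  have hp1 : 0 < p - 1 := by have := hp.two_le; omega
  have hdvd : e ∣ p - 1 := orderOf_dvd_of_pow_eq_one hpow
  have he0 : 0 < e := Nat.pos_of_dvd_of_pos hdvd hp1
  have hep : e < p := by
    have := Nat.le_of_dvd hp1 hdvd
    omega
  have hez : ((e : ℕ) : ZMod p) ≠ 0 := by
    rw [Ne, ZMod.natCast_eq_zero_iff]
    intro h
    have := Nat.le_of_dvd he0 h
    omega
  have hcast : ∀ x : ℕ, ((sh x : ℕ) : ZMod p) = 2 ^ x - x := by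
    intro x
    unfold sh
    rw [Nat.cast_sub (Nat.lt_two_pow_self.le)]
    push_cast
    rfl
  have key : ∀ x y : ℕ, (p : ℤ) ∣ (sh x : ℤ) - r → (p : ℤ) ∣ (sh y : ℤ) - r → x % e = y % e →
      x / e ≡ y / e [MOD p] := by
    intro x y hx hy hxy
    have h3 : (p : ℤ) ∣ (sh x : ℤ) - (sh y : ℤ) := by
      have := dvd_sub hx hy
      have h4 : (sh x : ℤ) - r - ((sh y : ℤ) - r) = (sh x : ℤ) - (sh y : ℤ) := by ring
      rwa [h4] at this
    have h4 : (((sh x : ℤ) - (sh y : ℤ) : ℤ) : ZMod p) = 0 := (ZMod.intCast_zmod_eq_zero_iff_dvd _ _).mpr h3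
    push_cast at h4
    rw [hcast, hcast] at h4
    have h5 : (2 : ZMod p) ^ x = 2 ^ y := by
      rw [← pow_mod_orderOf (2 : ZMod p) x, ← pow_mod_orderOf (2 : ZMod p) y, ← he, hxy]
    rw [h5] at h4
    have h6 : (x : ZMod p) = y := by
      linear_combination -h4
    have hxd : ((x : ℕ) : ZMod p) = ((x % e : ℕ) : ZMod p) + (e : ZMod p) * ((x / e : ℕ) : ZMod p) := by
      rw [← Nat.cast_mul, ← Nat.cast_add, Nat.mod_add_div]
    have hyd : ((y : ℕ) : ZMod p) = ((y % e : ℕ) : ZMod p) + (e : ZMod p) * ((y / e : ℕ) : ZMod p) := by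
      rw [← Nat.cast_mul, ← Nat.cast_add, Nat.mod_add_div]
    rw [hxd, hyd, hxy] at h6
    have h7 := mul_left_cancel₀ hez (add_left_cancel h6)
    exact (ZMod.natCast_eq_natCast_iff _ _ _).mp h7
  have hcard : #((Icc 1 L).filter fun x : ℕ => (p : ℤ) ∣ (sh x : ℤ) - r) ≤ e * (L / e / p + 1) := by
    have h8 : #((Finset.range e) ×ˢ (Finset.range (L / e / p + 1))) = e * (L / e / p + 1) := by
      rw [Finset.card_product, Finset.card_range, Finset.card_range]
    rw [← h8]
    refine Finset.card_le_card_of_injOn (fun x => (x % e, x / e / p)) ?_ ?_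
    · intro x hx
      rw [Finset.mem_coe, Finset.mem_filter, Finset.mem_Icc] at hx
      rw [Finset.mem_coe, Finset.mem_product, Finset.mem_range, Finset.mem_range]
      refine ⟨Nat.mod_lt _ he0, ?_⟩
      have h9 : x / e / p ≤ L / e / p := Nat.div_le_div_right (Nat.div_le_div_right hx.1.2)
      show x / e / p < L / e / p + 1
      omega
    · intro x hx y hy hxy
      rw [Finset.mem_coe, Finset.mem_filter] at hx hy
      simp only [Prod.mk.injEq] at hxy
      have h9 := key x y hx.2 hy.2 hxy.1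
      have h10 : x / e = y / e := by
        rw [← Nat.mod_add_div (x / e) p, ← Nat.mod_add_div (y / e) p, hxy.2, h9]
      rw [← Nat.mod_add_div x e, ← Nat.mod_add_div y e, hxy.1, h10]
  have h11 : e * (L / e / p + 1) ≤ L / p + e := by
    have h12 : e * (L / e / p) ≤ L / p := by
      rw [Nat.div_div_eq_div_mul, mul_comm e p, ← Nat.div_div_eq_div_mul]
      exact Nat.mul_div_le _ _
    calc e * (L / e / p + 1) = e * (L / e / p) + e := by ring
      _ ≤ _ := by omega
  have h13 : ((#((Icc 1 L).filter fun x : ℕ => (p : ℤ) ∣ (sh x : ℤ) - r) : ℕ) : ℝ) ≤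
      ((L / p : ℕ) : ℝ) + e := by exact_mod_cast hcard.trans h11
  have h14 : ((L / p : ℕ) : ℝ) ≤ (L : ℝ) / p := Nat.cast_div_le
  have h15 : (e : ℝ) ≤ p := by exact_mod_cast hep.le
  have h16 : (p : ℝ) ≤ L / p := by
    rw [le_div_iff₀ hp0]
    nlinarith
  have h17 : (4 : ℝ) * L / p = 4 * (L / p) := by ring
  rw [h17]
  have h18 : (0 : ℝ) ≤ (L : ℝ) / p := by positivity
  linarith

end Pool.Agent.W2helper19.RX
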